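import Pool.Agent.N659.HB.Stm

/-!
Project HB, part GAU: Gaussian smoothing of the density of states.
-/

set_option autoImplicit false

namespace Pool.Agent.N835.HBGau

open MeasureTheory Filter Pool.Agent.W792.LL Pool.Agent.N659.HB

noncomputable section

/-- the cosine -/
def cc (θ : UnitAddCircle) : ℝ := (fourier 1 θ : ℂ).re

theorem cc_cont : Continuous cc := by
  unfold cc
  fun_prop

theorem cc_half (θ : UnitAddCircle) : cc (θ + ((1 / 2 / ((1 : ℤ) : ℝ) : ℝ) : UnitAddCircle)) = -cc θ := by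
  unfold cc
  rw [fourier_add_half_inv_index (n := 1) one_ne_zero one_pos θ, Complex.neg_re]

theorem int_sin (s : ℝ) : ∫ θ : UnitAddCircle, Real.sin (2 * s * cc θ) = 0 := by
  have h := integral_add_right_eq_self (μ := (volume : Measure UnitAddCircle))
    (fun θ => Real.sin (2 * s * cc θ)) ((1 / 2 / ((1 : ℤ) : ℝ) : ℝ) : UnitAddCircle)
  simp only [cc_half, mul_neg, Real.sin_neg, integral_neg] at h
  linarith

theorem int_circle (s : ℝ) :
    ∫ θ : UnitAddCircle, Complex.exp (Complex.I * s * ((2 - 2 * cc θ : ℝ) : ℂ)) =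
      Complex.exp (2 * Complex.I * s) * ((bes s : ℝ) : ℂ) := by
  have hc : Continuous cc := cc_cont
  have h1 : ∀ θ : UnitAddCircle, Complex.exp (Complex.I * s * ((2 - 2 * cc θ : ℝ) : ℂ)) =
      Complex.exp (2 * Complex.I * s) *
        (((Real.cos (2 * s * cc θ) : ℝ) : ℂ) - ((Real.sin (2 * s * cc θ) : ℝ) : ℂ) * Complex.I) := by
    intro θ
    have e : Complex.I * s * ((2 - 2 * cc θ : ℝ) : ℂ) =
      2 * Complex.I * s + (-((2 * s * cc θ : ℝ) : ℂ)) * Complex.I := by
      push_cast; ring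
    rw [e, Complex.exp_add, Complex.exp_mul_I, Complex.cos_neg, Complex.sin_neg,
      Complex.ofReal_cos, Complex.ofReal_sin]
    ring
  simp_rw [h1]
  rw [integral_const_mul, integral_sub, integral_mul_const, integral_complex_ofReal, integral_complex_ofReal,
    int_sin s]
  · simp [bes, cc]
  · refine Continuous.integrable_of_hasCompactSupport (by fun_prop) ?_
    exact HasCompactSupport.of_compactSpace _
  · refine Continuous.integrable_of_hasCompactSupport (by fun_prop) ?_
    exact HasCompactSupport.of_compactSpace _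

theorem int_torus (d : ℕ) (s E : ℝ) :
    ∫ k : UnitAddTorus (Fin d), Complex.exp (Complex.I * ((lap d k - E : ℝ) : ℂ) * s) =
      Complex.exp (Complex.I * s * (2 * d - E)) * ((bes s ^ d : ℝ) : ℂ) := by
  have h1 : ∀ k : UnitAddTorus (Fin d), Complex.exp (Complex.I * ((lap d k - E : ℝ) : ℂ) * s) =
      Complex.exp (-(Complex.I * E * s)) *
        ∏ i, Complex.exp (Complex.I * s * ((2 - 2 * cc (k i) : ℝ) : ℂ)) := by
    intro k
    rw [← Complex.exp_sum, ← Complex.exp_add]
    congr 1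
    have e : lap d k = ∑ i, (2 - 2 * cc (k i)) := rfl
    rw [e, ← Finset.mul_sum]
    push_cast
    ring
  simp_rw [h1]
  rw [integral_const_mul]
  have h2 := integral_fintype_prod_volume_eq_pow (ι := Fin d) (E := UnitAddCircle)
    (fun θ => Complex.exp (Complex.I * s * ((2 - 2 * cc θ : ℝ) : ℂ)))
  rw [h2, int_circle, Fintype.card_fin, mul_pow, ← Complex.exp_nat_mul, ← mul_assoc,
    ← Complex.exp_add]
  push_cast
  congr 2
  ring

theorem gauss (τ y : ℝ) (hτ : 0 < τ) :
    ((Real.exp (-(y ^ 2) / (2 * τ ^ 2)) : ℝ) : ℂ) = (τ / Real.sqrt (2 * Real.pi) : ℝ) *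
      ∫ s : ℝ, Complex.exp (Complex.I * y * s) * ((Real.exp (-(τ ^ 2 * s ^ 2) / 2) : ℝ) : ℂ) := by
  have hb : 0 < ((τ ^ 2 / 2 : ℝ) : ℂ).re := by
    rw [Complex.ofReal_re]; positivity
  have h := fourierIntegral_gaussian hb (y : ℂ)
  have h1 : ∀ s : ℝ, Complex.exp (-((τ ^ 2 / 2 : ℝ) : ℂ) * (s : ℂ) ^ 2) =
      ((Real.exp (-(τ ^ 2 * s ^ 2) / 2) : ℝ) : ℂ) := by
    intro s
    rw [Complex.ofReal_exp]
    congr 1
    push_cast; ring
  simp_rw [h1] at h
  rw [h]
  have h2 : (((Real.pi : ℝ) : ℂ) / ((τ ^ 2 / 2 : ℝ) : ℂ)) ^ (1 / 2 : ℂ) =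
      ((Real.sqrt (2 * Real.pi) / τ : ℝ) : ℂ) := by
    have e1 : ((Real.pi : ℝ) : ℂ) / ((τ ^ 2 / 2 : ℝ) : ℂ) = ((Real.pi / (τ ^ 2 / 2) : ℝ) : ℂ) := by
      push_cast; ring
    have e2 : (1 / 2 : ℂ) = ((1 / 2 : ℝ) : ℂ) := by push_cast; ring
    rw [e1, e2, ← Complex.ofReal_cpow (by positivity), ← Real.sqrt_eq_rpow]
    congr 1
    rw [show Real.pi / (τ ^ 2 / 2) = 2 * Real.pi / τ ^ 2 by field_simp,
      Real.sqrt_div (by positivity), Real.sqrt_sq hτ.le]
  rw [h2, Complex.ofReal_exp]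
  have h3 : (-(y : ℂ) ^ 2 / (4 * ((τ ^ 2 / 2 : ℝ) : ℂ))) = ((-(y ^ 2) / (2 * τ ^ 2) : ℝ) : ℂ) := by
    push_cast
    congr 1
    ring
  rw [h3, ← mul_assoc, ← Complex.ofReal_mul]
  have h4 : τ / Real.sqrt (2 * Real.pi) * (Real.sqrt (2 * Real.pi) / τ) = 1 := by
    have : Real.sqrt (2 * Real.pi) ≠ 0 := (Real.sqrt_pos.2 (by positivity)).ne'
    field_simp
  rw [h4, Complex.ofReal_one, one_mul]

theorem main : S_GAU := by
  intro d τ E hτ
  rw [← integral_complex_ofReal]
  simp_rw [gauss τ _ hτ]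
  rw [integral_const_mul]
  congr 1
  have hlap : Continuous fun k : UnitAddTorus (Fin d) => lap d k := (lap d).continuous
  have hint : Integrable (Function.uncurry fun (k : UnitAddTorus (Fin d)) (s : ℝ) =>
      Complex.exp (Complex.I * ((lap d k - E : ℝ) : ℂ) * s) *
        ((Real.exp (-(τ ^ 2 * s ^ 2) / 2) : ℝ) : ℂ))
      ((volume : Measure (UnitAddTorus (Fin d))).prod (volume : Measure ℝ)) := by
    have hg : Integrable (fun s : ℝ => Real.exp (-(τ ^ 2 * s ^ 2) / 2)) := by
      have := integrable_exp_neg_mul_sq (b := τ ^ 2 / 2) (by positivity)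
      refine this.congr (Eventually.of_forall fun s => ?_)
      simp only
      congr 1
      ring
    have hg2 : Integrable (fun z : UnitAddTorus (Fin d) × ℝ => Real.exp (-(τ ^ 2 * z.2 ^ 2) / 2))
        ((volume : Measure (UnitAddTorus (Fin d))).prod (volume : Measure ℝ)) := hg.comp_snd _
    refine hg2.mono' ?_ (Eventually.of_forall fun z => ?_)
    · refine Continuous.aestronglyMeasurable ?_
      unfold Function.uncurry
      fun_prop
    · obtain ⟨k, s⟩ := z
      simp only [Function.uncurry]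
      rw [norm_mul, Complex.norm_real, Real.norm_of_nonneg (Real.exp_pos _).le]
      have e : Complex.I * ((lap d k - E : ℝ) : ℂ) * s = (((lap d k - E) * s : ℝ) : ℂ) * Complex.I := by
        push_cast; ring
      rw [e, Complex.norm_exp_ofReal_mul_I, one_mul]
  rw [integral_integral_swap hint]
  refine integral_congr_ae (Eventually.of_forall fun s => ?_)
  simp only
  rw [integral_mul_const, int_torus]
  ring

end

end Pool.Agent.N835.HBGau
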